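import Pool.Agent.Helper14.LE.St

set_option autoImplicit false

namespace Pool.Agent.Helper34.LE

open Pool.Agent.Helper14.LK Pool.Agent.Helper14.LE
open scoped ContDiff Topology Manifold
open MeasureTheory Set Filter

private theorem extA {E F G : Type} [NormedAddCommGroup E] [NormedSpace ℝ E]
    [FiniteDimensional ℝ E] [NormedAddCommGroup F] [NormedSpace ℝ F] [FiniteDimensional ℝ F]
    [NormedAddCommGroup G] [NormedSpace ℝ G] (j : E → F) (hj : ContDiff ℝ ∞ j)
    (hemb : Topology.IsClosedEmbedding j) (him : ∀ x u, fderiv ℝ j x u = 0 → u = 0)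
    (K : E → G) (hK : ContDiff ℝ ∞ K) (q : E) :
    ∃ U ∈ 𝓝 (j q), ∃ g : F → G, ContDiffOn ℝ ∞ g U ∧ ∀ y ∈ U, ∀ x, j x = y → g y = K x := by
  have hker : LinearMap.ker ((fderiv ℝ j q : E →L[ℝ] F) : E →ₗ[ℝ] F) = ⊥ := by
    rw [LinearMap.ker_eq_bot']
    exact fun u hu => him q u hu
  obtain ⟨P₀, hP₀⟩ := LinearMap.exists_leftInverse_of_injective _ hker
  set P : F →L[ℝ] E := LinearMap.toContinuousLinearMap P₀ with hP
  set f : E → E := fun x => P (j x) with hf
  have hfs : ContDiff ℝ ∞ f := P.contDiff.comp hj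
  have hjd : ∀ x, HasFDerivAt j (fderiv ℝ j x) x := fun x =>
    (hj.differentiable (by simp) x).hasFDerivAt
  have hfd : ∀ x, HasFDerivAt f (P.comp (fderiv ℝ j x)) x := fun x =>
    P.hasFDerivAt.comp x (hjd x)
  have hid : P.comp (fderiv ℝ j q) = ((ContinuousLinearEquiv.refl ℝ E : E ≃L[ℝ] E) :
      E →L[ℝ] E) := by
    ext u
    have := congrArg (fun L : E →ₗ[ℝ] E => L u) hP₀
    exact this
  have hfq : HasFDerivAt f ((ContinuousLinearEquiv.refl ℝ E : E ≃L[ℝ] E) : E →L[ℝ] E) q := by
    rw [← hid]; exact hfd q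
  set e := (hfs.contDiffAt (x := q)).toOpenPartialHomeomorph f hfq (by simp) with he
  have hcoe : ∀ x, e x = f x := fun x => by rw [he]; rfl
  have hqs : q ∈ e.source :=
    (hfs.contDiffAt (x := q)).mem_toOpenPartialHomeomorph_source hfq (by simp)
  set W : Set E := {x | P.comp (fderiv ℝ j x) ∈ range ((↑) : (E ≃L[ℝ] E) → (E →L[ℝ] E))} with hW
  have hWq : W ∈ 𝓝 q := by
    have hc : ContinuousAt (fun x => P.comp (fderiv ℝ j x)) q := by
      have h1 : Continuous (fun x => fderiv ℝ j x) := hj.continuous_fderiv (by simp)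
      exact (continuous_const.clm_comp h1).continuousAt
    have h2 := ContinuousLinearEquiv.nhds (ContinuousLinearEquiv.refl ℝ E)
    rw [← hid] at h2
    exact hc h2
  have hsym : ∀ a ∈ e.target, e.symm a ∈ W → ContDiffAt ℝ ∞ e.symm a := by
    intro a ha hw
    obtain ⟨L, hL⟩ := hw
    apply e.contDiffAt_symm ha (f₀' := L)
    · have h3 := hfd (e.symm a)
      rw [← hL] at h3
      exact h3
    · exact hfs.contDiffAt
  have hfqt : P (j q) ∈ e.target := by
    have := e.map_source hqs
    rwa [hcoe] at this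
  have hback : e.symm (P (j q)) = q := by
    have := e.left_inv hqs
    rwa [hcoe] at this
  -- neighbourhoods
  have hU1 : {w : F | P w ∈ e.target} ∈ 𝓝 (j q) :=
    P.continuous.continuousAt.preimage_mem_nhds (e.open_target.mem_nhds hfqt)
  have hU2 : {w : F | e.symm (P w) ∈ W} ∈ 𝓝 (j q) := by
    have hc : ContinuousAt (fun w : F => e.symm (P w)) (j q) := by
      have h1 : ContinuousAt e.symm (P (j q)) := e.symm.continuousAt hfqt
      exact ContinuousAt.comp (g := e.symm) (f := fun w : F => P w) h1 P.continuous.continuousAt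
    apply hc.preimage_mem_nhds
    rw [hback]
    exact hWq
  have hU3 : ∃ U' ∈ 𝓝 (j q), ∀ x, j x ∈ U' → x ∈ e.source := by
    have h1 : e.source ∈ 𝓝 q := e.open_source.mem_nhds hqs
    rw [hemb.isInducing.nhds_eq_comap] at h1
    obtain ⟨U', hU', hsub⟩ := h1
    exact ⟨U', hU', fun x hx => hsub hx⟩
  obtain ⟨U', hU', hsub⟩ := hU3
  refine ⟨{w : F | P w ∈ e.target} ∩ {w : F | e.symm (P w) ∈ W} ∩ U',
    inter_mem (inter_mem hU1 hU2) hU', fun w => K (e.symm (P w)), ?_, ?_⟩
  · intro y hy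
    have h1 := hsym (P y) hy.1.1 hy.1.2
    have h2 : ContDiffAt ℝ ∞ (fun w : F => e.symm (P w)) y :=
      ContDiffAt.comp y (g := e.symm) (f := fun w : F => P w) h1 P.contDiff.contDiffAt
    exact (ContDiffAt.comp y (g := K) (f := fun w : F => e.symm (P w)) hK.contDiffAt
      h2).contDiffWithinAt
  · intro y hy x hx
    subst hx
    have h1 := hsub x hy.2
    have h2 := e.left_inv h1
    rw [hcoe] at h2
    show K (e.symm (P (j x))) = K x
    rw [h2]

theorem hEXL : StEXL := by
  intro E F G _ _ _ _ _ _ _ _ _ j hj hinj him htend K hK hKc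
  have hproper : IsProperMap j := isProperMap_iff_tendsto_cocompact.2 ⟨hj.continuous, htend⟩
  have hemb : Topology.IsClosedEmbedding j :=
    Topology.IsClosedEmbedding.of_continuous_injective_isClosedMap hj.continuous hinj
      hproper.isClosedMap
  have hconv : ∀ w : F, Convex ℝ {r : G | ∀ x, j x = w → r = K x} := by
    intro w r hr s hs a b ha hb hab x hx
    rw [hr x hx, hs x hx, ← add_smul, hab, one_smul]
  obtain ⟨g, hg⟩ := exists_contMDiffMap_forall_mem_convex_of_local (n := (⊤ : ℕ∞)) 𝓘(ℝ, F) hconv (by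
    intro w
    by_cases hw : w ∈ range j
    · obtain ⟨q, rfl⟩ := hw
      obtain ⟨U, hU, g, hgs, hgt⟩ := extA j hj hemb him K hK q
      exact ⟨U, hU, g, hgs.contMDiffOn, hgt⟩
    · refine ⟨(range j)ᶜ, hemb.isClosed_range.isOpen_compl.mem_nhds hw, fun _ => 0,
        contMDiffOn_const, ?_⟩
      intro y hy x hx
      exact absurd ⟨x, hx⟩ hy)
  have hgs : ContDiff ℝ ∞ (g : F → G) := g.contMDiff.contDiff
  have hcomp : IsCompact (j '' tsupport K) := hKc.isCompact.image hj.continuous
  obtain ⟨ρ, hρ⟩ := hcomp.isBounded.subset_closedBall (0 : F)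
  let B : ContDiffBump (0 : F) := ⟨max ρ 1, max ρ 1 + 1, by positivity, by linarith⟩
  refine ⟨fun w => B w • g w, B.contDiff.smul hgs, ?_, ?_⟩
  · exact B.hasCompactSupport.smul_right
  · intro x
    have h1 : g (j x) = K x := hg (j x) x rfl
    show B (j x) • g (j x) = K x
    rw [h1]
    by_cases hx : x ∈ tsupport K
    · have h2 : j x ∈ Metric.closedBall (0 : F) (max ρ 1) :=
        Metric.closedBall_subset_closedBall (le_max_left _ _) (hρ ⟨x, hx, rfl⟩)
      rw [B.one_of_mem_closedBall h2, one_smul]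
    · rw [image_eq_zero_of_notMem_tsupport hx, smul_zero]

end Pool.Agent.Helper34.LE
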