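import Pool.Agent.Helper14.LE.St

set_option autoImplicit false

namespace Pool.Agent.Helper34.LE

open Pool.Agent.Helper14.LK Pool.Agent.Helper14.LE
open scoped ContDiff Topology
open MeasureTheory Set Filter

/-- the map `(u, v) ↦ A u + J A v` -/
private noncomputable def TT {n : ℕ} (A : EE n →L[ℝ] WW n) : (EE n × EE n) →L[ℝ] WW n :=
  A.comp (ContinuousLinearMap.fst ℝ (EE n) (EE n)) +
    JJ.comp (A.comp (ContinuousLinearMap.snd ℝ (EE n) (EE n)))

private theorem TT_apply {n : ℕ} (A : EE n →L[ℝ] WW n) (p : EE n × EE n) :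
    TT A p = A p.1 + JJ (A p.2) := rfl

private theorem ip_zero {n : ℕ} {a : WW n} (h : ip a a = 0) : a = 0 := by
  rw [ip_self_eq] at h
  exact nm_eq_zero (pow_eq_zero_iff (two_ne_zero)|>.1 h)

private theorem TT_inj {n : ℕ} (A : EE n →L[ℝ] WW n) (h1 : ∀ u v, om (A u) (A v) = 0)
    (h2 : ∀ u, A u = 0 → u = 0) : Function.Injective (TT A) := by
  rw [injective_iff_map_eq_zero]
  intro p hp
  rw [TT_apply] at hp
  have h3 : om (A p.2) (A p.1 + JJ (A p.2)) = 0 := by rw [hp, om_zero_right]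
  rw [om_add_right, h1, zero_add, om_JJ_right] at h3
  have h4 := ip_zero h3
  have h5 := h2 _ h4
  rw [h4, map_zero, add_zero] at hp
  exact Prod.ext (h2 _ hp) h5

private theorem TT_bij {n : ℕ} (A : EE n →L[ℝ] WW n) (h1 : ∀ u v, om (A u) (A v) = 0)
    (h2 : ∀ u, A u = 0 → u = 0) : Function.Bijective (TT A) := by
  have hi := TT_inj A h1 h2
  exact ⟨hi, (LinearMap.injective_iff_surjective (f := ((TT A) : (EE n × EE n) →ₗ[ℝ] WW n))).1 hi⟩

private theorem snd_zero {n : ℕ} (A : EE n →L[ℝ] WW n) (h1 : ∀ u v, om (A u) (A v) = 0)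
    (h2 : ∀ u, A u = 0 → u = 0) (p : EE n × EE n) (h : ∀ u, om (TT A p) (A u) = 0) :
    TT A p = A p.1 := by
  have h3 := h p.2
  rw [TT_apply, om_add_left, h1, zero_add, om_JJ_left, neg_eq_zero] at h3
  have h4 := ip_zero h3
  rw [TT_apply, h4, map_zero, add_zero]

private theorem part1 (n : ℕ) (A : EE n →L[ℝ] WW n) (h1 : ∀ u v, om (A u) (A v) = 0)
    (h2 : ∀ u, A u = 0 → u = 0) (b : WW n) (h : ∀ u, om b (A u) = 0) : ∃ u, b = A u := by
  obtain ⟨p, rfl⟩ := (TT_bij A h1 h2).2 b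
  exact ⟨p.1, snd_zero A h1 h2 p h⟩

private theorem part3 (k : ℕ) (A : EE (k + 1) →L[ℝ] WW (k + 1))
    (h1 : ∀ u v, om (A u) (A v) = 0) (h2 : ∀ u, cc (A u) = 0 → zz (A u) = 0 → u = 0)
    (c : EE k) : ∃ u, cc (A u) = c := by
  have h2' : ∀ u, A u = 0 → u = 0 := fun u hu => h2 u (by rw [hu, map_zero]) (by rw [hu, map_zero])
  set Y : Submodule ℝ (EE k) := LinearMap.range ((cc.comp A : EE (k + 1) →L[ℝ] EE k) :
    EE (k + 1) →ₗ[ℝ] EE k) with hY
  have hperp : Yᗮ = ⊥ := by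
    rw [Submodule.eq_bot_iff]
    intro ξ hξ
    have hb : ∀ u, om (pl (0 : EE k) ξ 0) (A u) = 0 := by
      intro u
      rw [om_eq, cc_pl, dd_pl, zz_pl, inner_zero_left]
      have h3 : inner ℝ ξ (cc (A u)) = 0 := by
        rw [real_inner_comm]
        exact (Submodule.mem_orthogonal Y ξ).1 hξ _ ⟨u, rfl⟩
      rw [h3]
      simp [ar]
    obtain ⟨u₀, hu⟩ := part1 (k + 1) A h1 h2' _ hb
    have h4 : u₀ = 0 := h2 u₀ (by rw [← hu, cc_pl]) (by rw [← hu, zz_pl])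
    have h5 : dd (pl (0 : EE k) ξ 0) = 0 := by rw [hu, h4, map_zero, map_zero]
    rwa [dd_pl] at h5
  have htop : Y = ⊤ := by
    rw [← Submodule.orthogonal_orthogonal Y, hperp, Submodule.bot_orthogonal_eq_top]
  have hc : c ∈ Y := by rw [htop]; exact Submodule.mem_top
  obtain ⟨u, hu⟩ := hc
  exact ⟨u, hu⟩

private theorem part2 (n : ℕ) (E : Type) [NormedAddCommGroup E] [NormedSpace ℝ E]
    (A : E → (EE n →L[ℝ] WW n)) (b : E → WW n) (hA : ContDiff ℝ ∞ A) (hb : ContDiff ℝ ∞ b)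
    (h1 : ∀ e u v, om (A e u) (A e v) = 0) (h2 : ∀ e u, A e u = 0 → u = 0)
    (h3 : ∀ e u, om (b e) (A e u) = 0) :
    ∃ u : E → EE n, ContDiff ℝ ∞ u ∧ ∀ e, b e = A e (u e) := by
  have hT : ContDiff ℝ ∞ (fun e => TT (A e)) := by
    unfold TT
    exact (hA.clm_comp contDiff_const).add
      (contDiff_const.clm_comp (hA.clm_comp contDiff_const))
  let Q : E → ((EE n × EE n) ≃L[ℝ] WW n) := fun e =>
    (LinearEquiv.ofBijective ((TT (A e)) : (EE n × EE n) →ₗ[ℝ] WW n)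
      (TT_bij (A e) (h1 e) (h2 e))).toContinuousLinearEquiv
  have hQ : ∀ e, ((Q e : (EE n × EE n) ≃L[ℝ] WW n) : (EE n × EE n) →L[ℝ] WW n) = TT (A e) := by
    intro e
    ext p <;> rfl
  have hinv : ContDiff ℝ ∞ (fun e => ContinuousLinearMap.inverse (TT (A e))) := by
    rw [contDiff_iff_contDiffAt]
    intro e
    have h := contDiffAt_map_inverse (𝕜 := ℝ) (n := ∞) (Q e)
    rw [hQ] at h
    exact h.comp e hT.contDiffAt
  refine ⟨fun e => (ContinuousLinearMap.inverse (TT (A e)) (b e)).1,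
    contDiff_fst.comp (hinv.clm_apply hb), ?_⟩
  intro e
  have h4 : ContinuousLinearMap.inverse (TT (A e)) = ((Q e).symm : WW n →L[ℝ] (EE n × EE n)) := by
    rw [← hQ, ContinuousLinearMap.inverse_equiv]
  have h5 : TT (A e) ((Q e).symm (b e)) = b e := by
    rw [← hQ]
    exact (Q e).apply_symm_apply (b e)
  have h6 := snd_zero (A e) (h1 e) (h2 e) ((Q e).symm (b e)) (fun u => by rw [h5]; exact h3 e u)
  rw [h5] at h6
  show b e = A e (ContinuousLinearMap.inverse (TT (A e)) (b e)).1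
  rw [h4]
  exact h6

theorem hLAG : StLAG :=
  ⟨fun n A h1 h2 b h => part1 n A h1 h2 b h,
    fun n E _ _ A b hA hb h1 h2 h3 => part2 n E A b hA hb h1 h2 h3,
    fun k A h1 h2 c => part3 k A h1 h2 c⟩

end Pool.Agent.Helper34.LE
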