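import Pool.Agent.Helper14.LE.St

set_option autoImplicit false

namespace Pool.Agent.Helper34.LE

open Pool.Agent.Helper14.LK Pool.Agent.Helper14.LE
open scoped ContDiff Topology
open MeasureTheory Set Filter

private theorem abs_ar_le (a b : ℂ) : |ar a b| ≤ ‖a‖ * ‖b‖ := by
  rw [ar_eq]
  refine (Complex.abs_im_le_norm _).trans ?_
  rw [norm_mul, Complex.norm_conj]

private theorem ar_sub_left (a b c : ℂ) : ar (a - b) c = ar a c - ar b c := by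
  simp only [ar, Complex.sub_re, Complex.sub_im]; ring

private theorem ar_I (v : ℂ) : ar v (Complex.I * v) = ‖v‖ ^ 2 := by
  rw [← Complex.normSq_eq_norm_sq, Complex.normSq_apply]
  simp [ar]

/-- speed bound along a trajectory -/
private theorem speed {E : Type} [NormedAddCommGroup E] [NormedSpace ℝ E]
    {V : E → ℂ → ℂ} {Φ : E → ℝ → ℂ → ℂ} (hΦ : PFl V Φ) {M : ℝ} (hM : ∀ p z, ‖V p z‖ ≤ M)
    (p : E) (z : ℂ) (a b : ℝ) : ‖Φ p b z - Φ p a z‖ ≤ M * |b - a| := by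
  have h := Convex.norm_image_sub_le_of_norm_hasDerivWithin_le (𝕜 := ℝ) (f := fun s => Φ p s z)
    (f' := fun s => V p (Φ p s z)) (C := M) (s := univ) (x := a) (y := b)
    (fun s _ => (hΦ.deriv p s z).hasDerivWithinAt) (fun s _ => hM _ _) convex_univ
    (mem_univ _) (mem_univ _)
  simpa using h

/-- a trajectory passing near `z₀` meets the transverse segment -/
private theorem hit {E : Type} [NormedAddCommGroup E] [NormedSpace ℝ E]
    {V : E → ℂ → ℂ} {Φ : E → ℝ → ℂ → ℂ} (hΦ : PFl V Φ) {M : ℝ} (hM : ∀ p z, ‖V p z‖ ≤ M)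
    (p : E) (v z₀ : ℂ) (hv : 0 < ‖v‖) (ρ r τ : ℝ) (hρ : 0 < ρ) (hr : 0 < r)
    (hMr : 8 * M * r = ρ * ‖v‖) (hrρ : 8 * r ≤ ρ) (hτ : τ * ‖v‖ = 2 * r)
    (hV : ∀ z, ‖z - z₀‖ ≤ ρ → ‖V p z - v‖ ≤ ‖v‖ / 4) (z : ℂ) (s : ℝ)
    (hs : ‖Φ p s z - z₀‖ < r) :
    ∃ s' ∈ Icc (s - τ) (s + τ), ∃ y : ℝ, |y| * ‖v‖ ≤ ρ ∧
      Φ p s' z = z₀ + (y : ℂ) * (Complex.I * v) := by
  have hτ0 : 0 < τ := by
    by_contra h
    have : τ * ‖v‖ ≤ 0 := mul_nonpos_of_nonpos_of_nonneg (not_lt.1 h) hv.le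
    linarith
  have hMτ : M * τ = ρ / 4 := by
    have h1 : 4 * (M * τ) * ‖v‖ = ρ * ‖v‖ := by
      calc 4 * (M * τ) * ‖v‖ = 4 * M * (τ * ‖v‖) := by ring
        _ = 8 * M * r := by rw [hτ]; ring
        _ = ρ * ‖v‖ := hMr
    have h2 := mul_right_cancel₀ hv.ne' h1
    linarith
  have hM0 : 0 ≤ M := (norm_nonneg _).trans (hM p z)
  have near : ∀ s' ∈ Icc (s - τ) (s + τ), ‖Φ p s' z - z₀‖ ≤ ρ := by
    intro s' h'
    have h1 := speed hΦ hM p z s s'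
    have h2 : |s' - s| ≤ τ := by rw [abs_le]; constructor <;> linarith [h'.1, h'.2]
    have h3 : M * |s' - s| ≤ M * τ := mul_le_mul_of_nonneg_left h2 hM0
    have h4 : Φ p s' z - z₀ = (Φ p s' z - Φ p s z) + (Φ p s z - z₀) := by ring
    rw [h4]
    refine (norm_add_le _ _).trans ?_
    linarith
  set κ : ℝ → ℝ := fun s' => ((starRingEnd ℂ) v * (Φ p s' z - z₀)).re with hκ
  have hκd : ∀ s', HasDerivAt κ (((starRingEnd ℂ) v * V p (Φ p s' z)).re) s' := by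
    intro s'
    have h1 := ((hΦ.deriv p s' z).sub_const z₀).const_mul ((starRingEnd ℂ) v)
    have h2 := Complex.reCLM.hasFDerivAt.comp_hasDerivAt s' h1
    exact h2
  have hκ' : ∀ s' ∈ Icc (s - τ) (s + τ), 3 / 4 * ‖v‖ ^ 2 ≤ deriv κ s' := by
    intro s' h'
    rw [(hκd s').deriv]
    have h1 := hV (Φ p s' z) (near s' h')
    have h2 : (starRingEnd ℂ) v * V p (Φ p s' z) =
        (starRingEnd ℂ) v * v + (starRingEnd ℂ) v * (V p (Φ p s' z) - v) := by ring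
    rw [h2, Complex.add_re]
    have h3 : ((starRingEnd ℂ) v * v).re = ‖v‖ ^ 2 := by
      rw [← Complex.normSq_eq_norm_sq, Complex.normSq_apply]
      simp [Complex.mul_re]
    have h4 : |((starRingEnd ℂ) v * (V p (Φ p s' z) - v)).re| ≤ ‖v‖ * (‖v‖ / 4) := by
      refine (Complex.abs_re_le_norm _).trans ?_
      rw [norm_mul, Complex.norm_conj]
      exact mul_le_mul_of_nonneg_left h1 hv.le
    have h5 := (abs_le.1 h4).1
    rw [h3]
    nlinarith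
  have hκc : Continuous κ := continuous_iff_continuousAt.2 fun s' => (hκd s').continuousAt
  have mvt := Convex.mul_sub_le_image_sub_of_le_deriv (convex_Icc (s - τ) (s + τ))
    (f := κ) hκc.continuousOn (fun s' _ => (hκd s').differentiableAt.differentiableWithinAt)
    (C := 3 / 4 * ‖v‖ ^ 2) (fun s' h' => hκ' s' (interior_subset h'))
  have hκs : |κ s| ≤ ‖v‖ * r := by
    refine (Complex.abs_re_le_norm _).trans ?_
    rw [norm_mul, Complex.norm_conj]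
    exact mul_le_mul_of_nonneg_left hs.le hv.le
  have e1 : 3 / 4 * ‖v‖ ^ 2 * τ = 3 / 2 * (‖v‖ * r) := by
    calc 3 / 4 * ‖v‖ ^ 2 * τ = 3 / 4 * ‖v‖ * (τ * ‖v‖) := by ring
      _ = 3 / 2 * (‖v‖ * r) := by rw [hτ]; ring
  have hvr : 0 < ‖v‖ * r := mul_pos hv hr
  have a1 := mvt (s - τ) ⟨le_rfl, by linarith⟩ s ⟨by linarith, by linarith⟩ (by linarith)
  have a2 := mvt s ⟨by linarith, by linarith⟩ (s + τ) ⟨by linarith, le_rfl⟩ (by linarith)
  have b1 : κ (s - τ) ≤ 0 := by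
    have : 3 / 4 * ‖v‖ ^ 2 * (s - (s - τ)) = 3 / 4 * ‖v‖ ^ 2 * τ := by ring
    rw [this, e1] at a1
    linarith [(abs_le.1 hκs).2]
  have b2 : 0 ≤ κ (s + τ) := by
    have : 3 / 4 * ‖v‖ ^ 2 * (s + τ - s) = 3 / 4 * ‖v‖ ^ 2 * τ := by ring
    rw [this, e1] at a2
    linarith [(abs_le.1 hκs).1]
  obtain ⟨s', hs', hz⟩ := intermediate_value_Icc (show s - τ ≤ s + τ by linarith)
    hκc.continuousOn ⟨b1, b2⟩
  refine ⟨s', hs', ((starRingEnd ℂ) v * (Φ p s' z - z₀)).im / ‖v‖ ^ 2, ?_, ?_⟩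
  · have h1 : |((starRingEnd ℂ) v * (Φ p s' z - z₀)).im| ≤ ‖v‖ * ρ := by
      refine (Complex.abs_im_le_norm _).trans ?_
      rw [norm_mul, Complex.norm_conj]
      exact mul_le_mul_of_nonneg_left (near s' hs') hv.le
    rw [abs_div, abs_of_pos (pow_pos hv 2), div_mul_eq_mul_div, div_le_iff₀ (pow_pos hv 2)]
    nlinarith
  · have h1 : (starRingEnd ℂ) v * (Φ p s' z - z₀) =
        ((((starRingEnd ℂ) v * (Φ p s' z - z₀)).im : ℝ) : ℂ) * Complex.I := by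
      apply Complex.ext
      · simp only [Complex.mul_re, Complex.ofReal_re, Complex.I_re, Complex.ofReal_im,
          Complex.I_im, mul_zero, zero_mul, sub_zero]
        exact hz
      · simp only [Complex.mul_im, Complex.ofReal_re, Complex.I_re, Complex.ofReal_im,
          Complex.I_im, mul_zero, zero_mul, add_zero, mul_one]
    have h2 : (starRingEnd ℂ) v * v = ((‖v‖ ^ 2 : ℝ) : ℂ) := by
      rw [mul_comm, Complex.mul_conj, Complex.normSq_eq_norm_sq]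
    have h3 : ((‖v‖ ^ 2 : ℝ) : ℂ) ≠ 0 := Complex.ofReal_ne_zero.2 (pow_pos hv 2).ne'
    have h4 : ((‖v‖ ^ 2 : ℝ) : ℂ) * (Φ p s' z - z₀) =
        ((((starRingEnd ℂ) v * (Φ p s' z - z₀)).im : ℝ) : ℂ) * (Complex.I * v) := by
      calc ((‖v‖ ^ 2 : ℝ) : ℂ) * (Φ p s' z - z₀)
          = ((starRingEnd ℂ) v * (Φ p s' z - z₀)) * v := by rw [← h2]; ring
        _ = _ := by rw [h1]; simp only [Complex.mul_im, Complex.ofReal_re, Complex.I_re,
          Complex.ofReal_im, Complex.I_im, mul_zero, zero_mul, add_zero, mul_one]; ring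
    have h5 : Φ p s' z - z₀ =
        ((((starRingEnd ℂ) v * (Φ p s' z - z₀)).im / ‖v‖ ^ 2 : ℝ) : ℂ) * (Complex.I * v) := by
      rw [Complex.ofReal_div, div_mul_eq_mul_div, eq_div_iff h3, mul_comm]
      exact h4
    rw [← h5]; ring

/-- the local statement (A) -/
private theorem loc {E : Type} [NormedAddCommGroup E] [NormedSpace ℝ E] [FiniteDimensional ℝ E]
    (hSMN : StSMN) {V : E → ℂ → ℂ} {Φ : E → ℝ → ℂ → ℂ} {R : ℝ} (hV : PF V R) (hΦ : PFl V Φ)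
    {M : ℝ} (hM : ∀ p z, ‖V p z‖ ≤ M) (p₀ : E) (z₀ : ℂ) :
    ∃ δ r τ : ℝ, 0 < δ ∧ 0 < r ∧ 0 < τ ∧ ∀ p, ‖p - p₀‖ < δ → Good Φ R p →
      ∀ (z : ℂ) (s₁ s₂ : ℝ), s₁ ≤ s₂ → ‖Φ p s₁ z - z₀‖ < r → ‖Φ p s₂ z - z₀‖ < r →
        s₂ - s₁ ≤ 2 * τ := by
  set v := V p₀ z₀ with hv
  have hv0 : 0 < ‖v‖ := norm_pos_iff.2 (hV.ne p₀ z₀)
  have hMv : ‖v‖ ≤ M := hM p₀ z₀
  have hM0 : 0 < M := lt_of_lt_of_le hv0 hMv
  have hc : ContinuousAt (Function.uncurry V) (p₀, z₀) := hV.smooth.continuous.continuousAt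
  obtain ⟨ρ', hρ', hcont⟩ := Metric.continuousAt_iff.1 hc (‖v‖ / 4) (by positivity)
  have hρ : 0 < ρ' / 2 := by positivity
  have hcl : ∀ p, ‖p - p₀‖ < ρ' → ∀ z, ‖z - z₀‖ ≤ ρ' / 2 → ‖V p z - v‖ ≤ ‖v‖ / 4 := by
    intro p hp z hz
    have h1 : dist (p, z) (p₀, z₀) < ρ' := by
      rw [Prod.dist_eq, dist_eq_norm, dist_eq_norm]
      exact max_lt hp (by linarith)
    have h2 := hcont h1
    rw [dist_eq_norm] at h2
    exact h2.le
  refine ⟨ρ', (ρ' / 2) * ‖v‖ / (8 * M), 2 * ((ρ' / 2) * ‖v‖ / (8 * M)) / ‖v‖, hρ',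
    by positivity, by positivity, ?_⟩
  set r := (ρ' / 2) * ‖v‖ / (8 * M) with hr
  set τ := 2 * r / ‖v‖ with hτ
  have hr0 : 0 < r := by positivity
  have hτv : τ * ‖v‖ = 2 * r := by rw [hτ]; field_simp
  have hMr : 8 * M * r = ρ' / 2 * ‖v‖ := by rw [hr]; field_simp
  have hrρ : 8 * r ≤ ρ' / 2 := by
    have : 8 * r * M ≤ ρ' / 2 * M := by
      calc 8 * r * M = 8 * M * r := by ring
        _ = ρ' / 2 * ‖v‖ := hMr
        _ ≤ ρ' / 2 * M := mul_le_mul_of_nonneg_left hMv hρ.le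
    exact le_of_mul_le_mul_right this hM0
  intro p hp hg z s₁ s₂ h12 h1 h2
  by_contra hcon
  rw [not_le] at hcon
  obtain ⟨t₁, ht₁, y₁, hy₁, e₁⟩ := hit hΦ hM p v z₀ hv0 (ρ' / 2) r τ hρ hr0 hMr hrρ hτv
    (hcl p hp) z s₁ h1
  obtain ⟨t₂, ht₂, y₂, hy₂, e₂⟩ := hit hΦ hM p v z₀ hv0 (ρ' / 2) r τ hρ hr0 hMr hrρ hτv
    (hcl p hp) z s₂ h2
  have hseg := (hSMN E V Φ R hV hΦ p hg).2 z₀ (Complex.I * v) (-(ρ' / 2 / ‖v‖)) (ρ' / 2 / ‖v‖)
    (by
      intro y hy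
      have hy' : |y| ≤ ρ' / 2 / ‖v‖ := abs_le.2 ⟨hy.1, hy.2⟩
      have hn : ‖z₀ + (y : ℂ) * (Complex.I * v) - z₀‖ ≤ ρ' / 2 := by
        rw [add_sub_cancel_left, norm_mul, norm_mul, Complex.norm_I, one_mul, Complex.norm_real,
          Real.norm_eq_abs]
        exact (le_div_iff₀ hv0).1 hy'
      have h3 := hcl p hp _ hn
      have h4 : ar (V p (z₀ + (y : ℂ) * (Complex.I * v))) (Complex.I * v) =
          ar (V p (z₀ + (y : ℂ) * (Complex.I * v)) - v) (Complex.I * v) +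
            ar v (Complex.I * v) := by rw [ar_sub_left]; ring
      have h5 := abs_ar_le (V p (z₀ + (y : ℂ) * (Complex.I * v)) - v) (Complex.I * v)
      have h6 : ‖Complex.I * v‖ = ‖v‖ := by rw [norm_mul, Complex.norm_I, one_mul]
      rw [h6] at h5
      have h7 : ‖V p (z₀ + (y : ℂ) * (Complex.I * v)) - v‖ * ‖v‖ ≤ ‖v‖ / 4 * ‖v‖ :=
        mul_le_mul_of_nonneg_right h3 hv0.le
      rw [h4, ar_I]
      have h8 := (abs_le.1 (h5.trans h7)).1
      nlinarith)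
  have m₁ : y₁ ∈ Icc (-(ρ' / 2 / ‖v‖)) (ρ' / 2 / ‖v‖) := by
    rw [mem_Icc, ← abs_le, le_div_iff₀ hv0]; exact hy₁
  have m₂ : y₂ ∈ Icc (-(ρ' / 2 / ‖v‖)) (ρ' / 2 / ‖v‖) := by
    rw [mem_Icc, ← abs_le, le_div_iff₀ hv0]; exact hy₂
  have hz : Φ p (t₂ - t₁) (z₀ + (y₁ : ℂ) * (Complex.I * v)) =
      z₀ + (y₂ : ℂ) * (Complex.I * v) := by
    rw [← e₁, ← e₂, ← hΦ.add]
    congr 1
    ring
  have h0 := hseg y₁ m₁ y₂ m₂ (t₂ - t₁) hz
  linarith [ht₁.2, ht₂.1]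

theorem hSUN (hPFL : StPFL) (hSMN : StSMN) : StSUN := by
  intro E _ _ _ V Φ R hV hΦ p₀
  obtain ⟨-, hP⟩ := hPFL E V R hV
  obtain ⟨-, hstr, -, -, -, hord, ⟨M, hM0, hM⟩, -, -⟩ := hP Φ hΦ
  choose δ r τ hδ hr hτ hloc using fun z₀ : ℂ => loc hSMN hV hΦ hM p₀ z₀
  obtain ⟨t, ht⟩ := (isCompact_closedBall (0 : ℂ) R).elim_finite_subcover
    (fun z₀ : ℂ => Metric.ball z₀ (r z₀)) (fun _ => Metric.isOpen_ball)
    (fun z _ => mem_iUnion.2 ⟨z, Metric.mem_ball_self (hr z)⟩)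
  -- a common δ
  obtain ⟨δ₀, hδ₀, hδ₀t⟩ : ∃ δ₀ : ℝ, 0 < δ₀ ∧ ∀ z ∈ t, δ₀ ≤ δ z := by
    rcases t.eq_empty_or_nonempty with h | h
    · exact ⟨1, one_pos, fun z hz => by simp [h] at hz⟩
    · obtain ⟨z, hz, hmin⟩ := t.exists_min_image δ h
      exact ⟨δ z, hδ z, hmin⟩
  set τ₀ := ∑ z ∈ t, τ z with hτ₀
  have hτ₀t : ∀ z ∈ t, τ z ≤ τ₀ := fun z hz =>
    Finset.single_le_sum (f := τ) (fun y _ => (hτ y).le) hz
  have hτ₀0 : 0 ≤ τ₀ := Finset.sum_nonneg fun y _ => (hτ y).le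
  set η := 2 * τ₀ + 1 with hη
  have hη0 : 0 < η := by linarith
  set T₁ : ℝ := t.card * η with hT₁
  have hT₁0 : 0 ≤ T₁ := by positivity
  refine ⟨δ₀, T₁ + (2 * R + M * T₁), hδ₀, ?_, ?_⟩
  · have := hV.pos
    positivity
  intro p hp hg z hz
  -- the claim
  have claim : ∀ s, T₁ ≤ s → R < ‖Φ p (-s) z‖ := by
    intro s hs
    by_contra hcon
    rw [not_lt] at hcon
    have hoc := hord p z
    have m0 : (0 : ℝ) ∈ {s : ℝ | ‖Φ p s z‖ ≤ R} := by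
      show ‖Φ p 0 z‖ ≤ R
      rw [hΦ.zero]; exact hz
    have ms : (-s) ∈ {s : ℝ | ‖Φ p s z‖ ≤ R} := hcon
    have hsub := hoc.out ms m0
    have hin : ∀ j ∈ Finset.range (t.card + 1), ‖Φ p (-((j : ℝ) * η)) z‖ ≤ R := by
      intro j hj
      rw [Finset.mem_range, Nat.lt_succ_iff] at hj
      have h1 : (j : ℝ) * η ≤ T₁ := mul_le_mul_of_nonneg_right (by exact_mod_cast hj) hη0.le
      have h2 : 0 ≤ (j : ℝ) * η := by positivity
      exact hsub ⟨by linarith, by linarith⟩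
    have hcen : ∀ j ∈ Finset.range (t.card + 1), ∃ c ∈ t,
        ‖Φ p (-((j : ℝ) * η)) z - c‖ < r c := by
      intro j hj
      have h1 := ht (by rw [mem_closedBall_zero_iff]; exact hin j hj)
      simp only [mem_iUnion, exists_prop] at h1
      obtain ⟨c, hc, h2⟩ := h1
      exact ⟨c, hc, by rw [← dist_eq_norm]; exact h2⟩
    choose! c hct hcr using hcen
    obtain ⟨i, hi, j, hj, hij, hcij⟩ := Finset.exists_ne_map_eq_of_card_lt_of_maps_to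
      (s := Finset.range (t.card + 1)) (t := t) (by simp) (f := c) (fun j hj => hct j hj)
    have key : ∀ i ∈ Finset.range (t.card + 1), ∀ j ∈ Finset.range (t.card + 1), i < j →
        c i = c j → False := by
      intro i hi j hj hlt he
      have h1 : ((i : ℝ) + 1) ≤ j := by exact_mod_cast hlt
      have h2 : (i : ℝ) * η + η ≤ (j : ℝ) * η := by nlinarith
      have h3 := hloc (c i) p (lt_of_lt_of_le hp (hδ₀t _ (hct i hi))) hg z (-((j : ℝ) * η))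
        (-((i : ℝ) * η)) (by linarith) (by rw [he]; exact hcr j hj) (hcr i hi)
      have h4 := hτ₀t (c i) (hct i hi)
      linarith
    rcases lt_or_gt_of_ne hij with h | h
    · exact key i hi j hj h hcij
    · exact key j hj i hi h hcij.symm
  set z' := Φ p (-T₁) z with hz'
  have hu0 : 0 ≤ 2 * R + M * T₁ := by
    have := hV.pos
    positivity
  have e1 : Φ p (-(T₁ + (2 * R + M * T₁))) z = Φ p (-(2 * R + M * T₁)) z' := by
    rw [hz', ← hΦ.add]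
    congr 1
    ring
  have e2 : Φ p (-(2 * R + M * T₁)) z' = z' + ((-(2 * R + M * T₁) : ℝ) : ℂ) := by
    apply hstr
    intro q hq
    rw [uIcc_of_ge (by linarith), mem_Icc] at hq
    have h1 := claim (T₁ - q) (by linarith [hq.2])
    have h2 : Φ p (-(T₁ - q)) z = Φ p q z' := by
      rw [hz', ← hΦ.add]
      congr 1
      ring
    rw [h2] at h1
    exact h1.le
  rw [e1, e2, Complex.add_re, Complex.ofReal_re]
  have h3 : z'.re ≤ ‖z'‖ := Complex.re_le_norm z'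
  have h4 : ‖z'‖ ≤ R + M * T₁ := by
    have h5 := speed hΦ hM p z 0 (-T₁)
    rw [hΦ.zero, sub_zero, abs_neg, abs_of_nonneg hT₁0] at h5
    have h6 : ‖z'‖ ≤ ‖z' - z‖ + ‖z‖ := by
      simpa using norm_add_le (z' - z) z
    linarith
  linarith

end Pool.Agent.Helper34.LE
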